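import Mathlib

set_option autoImplicit false

namespace Pool.Agent.Results.MP_77abd0_co.RealCliqueRoots

open Polynomial

universe u

/-- `c_k(G)`: the number of `k`-cliques of `G`. -/
noncomputable def numCliques {V : Type u} (G : SimpleGraph V) (k : ℕ) : ℕ :=
  (G.cliqueSet k).ncard

/-- The clique polynomial `C(G, x) = ∑ c_k(G) x^k` of a finite graph. (Terms with
`k > ω(G)` vanish.) -/
noncomputable def cliquePoly {V : Type u} [Fintype V] (G : SimpleGraph V) : ℂ[X] :=
  ∑ k ∈ Finset.range (Fintype.card V + 1), C (numCliques G k : ℂ) * X ^ k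

/-- Every cycle of length at least four has a chord: an edge of `G` joining two vertices of the
cycle that is not an edge of the cycle. -/
def IsChordal {V : Type u} (G : SimpleGraph V) : Prop :=
  ∀ (v : V) (c : G.Walk v v), c.IsCycle → 4 ≤ c.length →
    ∃ a ∈ c.support, ∃ b ∈ c.support, G.Adj a b ∧ s(a, b) ∉ c.edges

/-- `G` has at least `l + 1` vertices and stays connected after deleting fewer than `l`
vertices. -/
def IsLConnected {V : Type u} [Fintype V] (G : SimpleGraph V) (l : ℕ) : Prop :=
  l + 1 ≤ Fintype.card V ∧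
    ∀ S : Finset V, S.card < l → (G.induce {v : V | v ∉ S}).Connected

section Shortest

variable {V : Type u} {G : SimpleGraph V}

theorem dist_getVert {a b : V} (p : G.Walk a b) (hp : p.length = G.dist a b) {i : ℕ}
    (hi : i ≤ p.length) : G.dist a (p.getVert i) = i := by
  have h1 : G.dist a (p.getVert i) ≤ i := by
    have := SimpleGraph.dist_le (p.take i)
    rw [SimpleGraph.Walk.take_length] at this
    omega
  have h2 : G.dist (p.getVert i) b ≤ p.length - i := by
    have := SimpleGraph.dist_le (p.drop i)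
    rw [SimpleGraph.Walk.drop_length] at this
    exact this
  have hr : G.Reachable a (p.getVert i) := ⟨p.take i⟩
  have h3 : G.dist a b ≤ G.dist a (p.getVert i) + G.dist (p.getVert i) b := by
    obtain ⟨q, hq⟩ := hr.exists_walk_length_eq_dist
    have hr' : G.Reachable (p.getVert i) b := ⟨p.drop i⟩
    obtain ⟨q', hq'⟩ := hr'.exists_walk_length_eq_dist
    rw [← hq, ← hq', ← SimpleGraph.Walk.length_append]
    exact SimpleGraph.dist_le _
  omega

theorem shortest_chordless {u v : V} (p : G.Walk u v) (hp : p.length = G.dist u v) {a b : V}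
    (ha : a ∈ p.support) (hb : b ∈ p.support) (hab : G.Adj a b) : s(a, b) ∈ p.edges := by
  obtain ⟨i, hi, hil⟩ := SimpleGraph.Walk.mem_support_iff_exists_getVert.1 ha
  obtain ⟨j, hj, hjl⟩ := SimpleGraph.Walk.mem_support_iff_exists_getVert.1 hb
  have di := dist_getVert p hp hil
  have dj := dist_getVert p hp hjl
  rw [hi] at di
  rw [hj] at dj
  have hra : G.Reachable u a := by
    rw [← hi]
    exact ⟨p.take i⟩
  have hrb : G.Reachable u b := by
    rw [← hj]
    exact ⟨p.take j⟩
  have h1 : G.dist u b ≤ G.dist u a + 1 := by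
    obtain ⟨q, hq⟩ := hra.exists_walk_length_eq_dist
    have := SimpleGraph.dist_le (q.concat hab)
    rw [SimpleGraph.Walk.length_concat, hq] at this
    exact this
  have h2 : G.dist u a ≤ G.dist u b + 1 := by
    obtain ⟨q, hq⟩ := hrb.exists_walk_length_eq_dist
    have := SimpleGraph.dist_le (q.concat hab.symm)
    rw [SimpleGraph.Walk.length_concat, hq] at this
    exact this
  have hij : i ≠ j := by
    intro h
    rw [h, hj] at hi
    rw [hi] at hab
    exact G.loopless.irrefl _ hab
  have hedge : ∀ k, k < p.length → s(p.getVert k, p.getVert (k + 1)) ∈ p.edges := by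
    intro k hk
    exact (SimpleGraph.Walk.mk_mem_edges_iff_exists p).2 ⟨k, hk, rfl⟩
  rcases Nat.lt_or_gt_of_ne hij with h | h
  · have hj' : j = i + 1 := by omega
    have := hedge i (by omega)
    rw [← hj', hi, hj] at this
    exact this
  · have hi' : i = j + 1 := by omega
    have := hedge j (by omega)
    rw [← hi', hi, hj] at this
    rw [Sym2.eq_swap]
    exact this

end Shortest

section Dirac

variable {V : Type u} {G : SimpleGraph V}

/-- If `u, v` are distinct neighbours of `x` joined by a walk whose inner vertices avoid the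
closed neighbourhood of `x`, then `u` and `v` are adjacent (in a chordal graph). -/
theorem chord_lemma (hG : IsChordal G) {x u v : V} (huv : u ≠ v) (hxu : G.Adj x u)
    (hxv : G.Adj x v) (H : Set V) (hxH : x ∉ H) (hH : ∀ h ∈ H, ¬ G.Adj x h)
    (hr : (G.induce {w | w ∈ H ∨ w = u ∨ w = v}).Reachable ⟨u, Or.inr (Or.inl rfl)⟩
      ⟨v, Or.inr (Or.inr rfl)⟩) : G.Adj u v := by
  by_contra hnadj
  obtain ⟨p, hp⟩ := hr.exists_walk_length_eq_dist
  have hpath := SimpleGraph.Walk.isPath_of_length_eq_dist p hp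
  have hlen : 2 ≤ p.length := by
    by_contra hlt
    push Not at hlt
    interval_cases h : p.length
    · have := SimpleGraph.Walk.eq_of_length_eq_zero h
      exact huv (congrArg Subtype.val this)
    · have := SimpleGraph.Walk.adj_of_length_eq_one h
      exact hnadj this
  let f : (G.induce {w | w ∈ H ∨ w = u ∨ w = v}) →g G :=
    (SimpleGraph.Embedding.induce _).toHom
  have hf : ∀ w, f w = w.1 := fun w => rfl
  obtain ⟨q, hqdef⟩ : ∃ q : G.Walk u v, q = p.map f := ⟨_, rfl⟩
  have hqs : q.support = p.support.map f := by rw [hqdef]; exact SimpleGraph.Walk.support_map f p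
  have hqe : q.edges = p.edges.map (Sym2.map f) := by
    rw [hqdef]; exact SimpleGraph.Walk.edges_map f p
  have hql : q.length = p.length := by rw [hqdef]; exact SimpleGraph.Walk.length_map f p
  have hq : q.IsPath := by rw [hqdef]; exact hpath.map Subtype.val_injective
  have hqmem : ∀ w ∈ q.support, w ∈ H ∨ w = u ∨ w = v := by
    intro w hw
    rw [hqs, List.mem_map] at hw
    obtain ⟨w', _, hw'⟩ := hw
    rw [← hw']
    exact w'.2
  have hxq : x ∉ q.support := by
    intro hx
    rcases hqmem x hx with h | h | h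
    · exact hxH h
    · rw [← h] at hxu
      exact G.loopless.irrefl _ hxu
    · rw [← h] at hxv
      exact G.loopless.irrefl _ hxv
  have hqc : ∀ a ∈ q.support, ∀ b ∈ q.support, G.Adj a b → s(a, b) ∈ q.edges := by
    intro a ha b hb hab
    rw [hqs, List.mem_map] at ha hb
    obtain ⟨a', ha', rfl⟩ := ha
    obtain ⟨b', hb', rfl⟩ := hb
    have h := shortest_chordless p hp ha' hb' hab
    rw [hqe, List.mem_map]
    exact ⟨_, h, rfl⟩
  obtain ⟨c, hcdef⟩ : ∃ c : G.Walk x x, c = SimpleGraph.Walk.cons hxu (q.concat hxv.symm) :=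
    ⟨_, rfl⟩
  have hce : ∀ e, e ∈ c.edges ↔ e = s(x, u) ∨ e ∈ q.edges ∨ e = s(v, x) := by
    intro e
    rw [hcdef]
    simp only [SimpleGraph.Walk.edges_cons, SimpleGraph.Walk.edges_concat, List.mem_cons,
      List.concat_eq_append, List.mem_append, List.not_mem_nil, or_false]
  have hcs : ∀ w, w ∈ c.support ↔ w = x ∨ w ∈ q.support := by
    intro w
    rw [hcdef]
    simp only [SimpleGraph.Walk.support_cons, SimpleGraph.Walk.support_concat, List.mem_cons,
      List.mem_append, List.not_mem_nil, or_false]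
    tauto
  have hc : c.IsCycle := by
    rw [hcdef, SimpleGraph.Walk.cons_isCycle_iff]
    refine ⟨(SimpleGraph.Walk.concat_isPath_iff _).2 ⟨hq, hxq⟩, ?_⟩
    rw [SimpleGraph.Walk.edges_concat, List.concat_eq_append, List.mem_append,
      List.mem_singleton]
    rintro (h | h)
    · exact hxq (SimpleGraph.Walk.fst_mem_support_of_mem_edges _ h)
    · rw [Sym2.eq_iff] at h
      rcases h with ⟨_, h⟩ | ⟨_, h⟩
      · rw [h] at hxu
        exact G.loopless.irrefl _ hxu
      · exact huv h
  have hcl : 4 ≤ c.length := by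
    rw [hcdef, SimpleGraph.Walk.length_cons, SimpleGraph.Walk.length_concat]
    omega
  obtain ⟨a, ha, b, hb, hab, hne⟩ := hG x c hc hcl
  apply hne
  rw [hce]
  rw [hcs] at ha hb
  rcases ha with rfl | ha <;> rcases hb with rfl | hb
  · exact absurd hab (G.loopless.irrefl _)
  · rcases hqmem b hb with h | h | h
    · exact absurd hab (hH b h)
    · left
      rw [h]
    · right; right
      rw [h, Sym2.eq_swap]
  · rcases hqmem a ha with h | h | h
    · exact absurd hab.symm (hH a h)
    · left
      rw [h, Sym2.eq_swap]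
    · right; right
      rw [h]
  · right; left
    exact hqc a ha b hb hab

/-- `b` can be reached from `a` inside the vertex set `D`. -/
def Conn (G : SimpleGraph V) (D : Set V) (a b : V) : Prop :=
  Relation.ReflTransGen (fun p q => p ∈ D ∧ q ∈ D ∧ G.Adj p q) a b

/-- The neighbourhood of `z` inside `W` is a clique. -/
def Simplicial (G : SimpleGraph V) (W : Finset V) (z : V) : Prop :=
  ∀ a ∈ W, ∀ b ∈ W, G.Adj z a → G.Adj z b → a ≠ b → G.Adj a b

theorem conn_reachable {D T : Set V} {y : V} (hy : y ∈ T)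
    (hT : ∀ h, h ∈ D → Conn G D y h → h ∈ T) {h : V} (hc : Conn G D y h) :
    ∀ hh : h ∈ T, (G.induce T).Reachable ⟨y, hy⟩ ⟨h, hh⟩ := by
  induction hc with
  | refl => exact fun _ => SimpleGraph.Reachable.refl _
  | tail hb hstep ih =>
    intro hh
    obtain ⟨h1, h2, h3⟩ := hstep
    have hbT := hT _ h1 hb
    refine (ih hbT).trans ?_
    refine SimpleGraph.Adj.reachable ?_
    exact h3

theorem exists_simplicial_aux (hG : IsChordal G) : ∀ (n : ℕ) (W : Finset V), W.card ≤ n →
    (∀ x ∈ W, ∀ y ∈ W, y ≠ x → ¬ G.Adj x y →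
      ∃ z ∈ W, z ≠ x ∧ ¬ G.Adj x z ∧ Simplicial G W z) ∧
    (W.Nonempty → ∃ z ∈ W, Simplicial G W z) := by
  classical
  intro n
  induction n with
  | zero =>
    intro W hW
    have hW' : W = ∅ := Finset.card_eq_zero.1 (by omega)
    subst hW'
    exact ⟨fun x hx => absurd hx (Finset.notMem_empty x), fun h => absurd h (by simp)⟩
  | succ n ih =>
    intro W hW
    have hP : ∀ x ∈ W, ∀ y ∈ W, y ≠ x → ¬ G.Adj x y →
        ∃ z ∈ W, z ≠ x ∧ ¬ G.Adj x z ∧ Simplicial G W z := by
      intro x hx y hy hyx hxy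
      -- D : the non-neighbours of x
      obtain ⟨D, hD⟩ : ∃ D : Set V, D = {d | d ∈ W ∧ d ≠ x ∧ ¬ G.Adj x d} := ⟨_, rfl⟩
      obtain ⟨H, hH⟩ : ∃ H : Finset V, H = W.filter (fun h => h ∈ D ∧ Conn G D y h) := ⟨_, rfl⟩
      obtain ⟨S, hS⟩ : ∃ S : Finset V, S = W.filter (fun s => s ∉ H ∧ ∃ h ∈ H, G.Adj s h) :=
        ⟨_, rfl⟩
      have memD : ∀ d, d ∈ D ↔ d ∈ W ∧ d ≠ x ∧ ¬ G.Adj x d := by
        intro d; rw [hD]; rfl
      have memH : ∀ h, h ∈ H ↔ h ∈ D ∧ Conn G D y h := by
        intro h
        rw [hH, Finset.mem_filter]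
        constructor
        · exact fun h => h.2
        · exact fun h => ⟨((memD _).1 h.1).1, h⟩
      have memS : ∀ s, s ∈ S ↔ s ∈ W ∧ s ∉ H ∧ ∃ h ∈ H, G.Adj s h := by
        intro s
        rw [hS, Finset.mem_filter]
      have hyD : y ∈ D := (memD y).2 ⟨hy, hyx, hxy⟩
      have hyH : y ∈ H := (memH y).2 ⟨hyD, Relation.ReflTransGen.refl⟩
      have hSx : ∀ s ∈ S, G.Adj x s := by
        intro s hs
        obtain ⟨hsW, hsH, h, hh, hsh⟩ := (memS s).1 hs
        obtain ⟨hhD, hhC⟩ := (memH h).1 hh
        obtain ⟨hhW, hhx, hxh⟩ := (memD h).1 hhD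
        by_contra hxs
        by_cases hsx : s = x
        · rw [hsx] at hsh
          exact hxh hsh
        · have hsD : s ∈ D := (memD s).2 ⟨hsW, hsx, hxs⟩
          exact hsH ((memH s).2 ⟨hsD, hhC.tail ⟨hhD, hsD, hsh.symm⟩⟩)
      have hSclique : ∀ u ∈ S, ∀ v ∈ S, u ≠ v → G.Adj u v := by
        intro u hu v hv huv
        obtain ⟨_, _, h1, hh1, hu1⟩ := (memS u).1 hu
        obtain ⟨_, _, h2, hh2, hv2⟩ := (memS v).1 hv
        refine chord_lemma hG huv (hSx u hu) (hSx v hv) (H : Set V) ?_ ?_ ?_
        · intro hxH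
          exact ((memD x).1 ((memH x).1 hxH).1).2.1 rfl
        · intro h hh
          exact ((memD h).1 ((memH h).1 hh).1).2.2
        · have hyT : y ∈ {w | w ∈ (H : Set V) ∨ w = u ∨ w = v} := Or.inl hyH
          have hT : ∀ h, h ∈ D → Conn G D y h → h ∈ {w | w ∈ (H : Set V) ∨ w = u ∨ w = v} :=
            fun h h1 h2 => Or.inl ((memH h).2 ⟨h1, h2⟩)
          have r1 := conn_reachable hyT hT ((memH h1).1 hh1).2 (Or.inl hh1)
          have r2 := conn_reachable hyT hT ((memH h2).1 hh2).2 (Or.inl hh2)
          have a1 : (G.induce {w | w ∈ (H : Set V) ∨ w = u ∨ w = v}).Adj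
              ⟨u, Or.inr (Or.inl rfl)⟩ ⟨h1, Or.inl hh1⟩ := hu1
          have a2 : (G.induce {w | w ∈ (H : Set V) ∨ w = u ∨ w = v}).Adj
              ⟨v, Or.inr (Or.inr rfl)⟩ ⟨h2, Or.inl hh2⟩ := hv2
          exact (a1.reachable.trans r1.symm).trans (r2.trans a2.symm.reachable)
      -- the smaller vertex set
      have hxHS : x ∉ S ∪ H := by
        rw [Finset.mem_union]
        rintro (h | h)
        · exact G.loopless.irrefl _ (hSx x h)
        · exact ((memD x).1 ((memH x).1 h).1).2.1 rfl
      have hHW : ∀ h ∈ H, h ∈ W := fun h hh => ((memD h).1 ((memH h).1 hh).1).1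
      have hsub : S ∪ H ⊆ W.erase x := by
        intro w hw
        rw [Finset.mem_erase]
        refine ⟨fun h => hxHS (h ▸ hw), ?_⟩
        rcases Finset.mem_union.1 hw with h | h
        · exact ((memS w).1 h).1
        · exact hHW w h
      have hcard : (S ∪ H).card ≤ n := by
        have h1 := Finset.card_le_card hsub
        rw [Finset.card_erase_of_mem hx] at h1
        omega
      have hcardH : H.card ≤ n := (Finset.card_le_card Finset.subset_union_right).trans hcard
      have hz : ∃ z ∈ H, Simplicial G (S ∪ H) z := by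
        by_cases hcase : ∃ s ∈ S, ∃ t ∈ S ∪ H, t ≠ s ∧ ¬ G.Adj s t
        · obtain ⟨s, hs, t, ht, hts, hst⟩ := hcase
          obtain ⟨z, hz, hzs, hsz, hsimp⟩ :=
            (ih (S ∪ H) hcard).1 s (Finset.mem_union_left _ hs) t ht hts hst
          rcases Finset.mem_union.1 hz with h | h
          · exact absurd (hSclique s hs z h hzs.symm) hsz
          · exact ⟨z, h, hsimp⟩
        · push Not at hcase
          obtain ⟨z, hz, hsimp⟩ := (ih H hcardH).2 ⟨y, hyH⟩
          refine ⟨z, hz, ?_⟩
          intro a ha b hb hza hzb hab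
          by_cases haS : a ∈ S
          · exact hcase a haS b hb hab.symm
          · by_cases hbS : b ∈ S
            · exact (hcase b hbS a ha hab).symm
            · have ha' : a ∈ H := (Finset.mem_union.1 ha).resolve_left haS
              have hb' : b ∈ H := (Finset.mem_union.1 hb).resolve_left hbS
              exact hsimp a ha' b hb' hza hzb hab
      obtain ⟨z, hz, hsimp⟩ := hz
      have hzD := ((memH z).1 hz).1
      refine ⟨z, hHW z hz, ((memD z).1 hzD).2.1, ((memD z).1 hzD).2.2, ?_⟩
      intro a ha b hb hza hzb hab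
      have hmem : ∀ a ∈ W, G.Adj z a → a ∈ S ∪ H := by
        intro a ha hza
        by_cases haH : a ∈ H
        · exact Finset.mem_union_right _ haH
        · exact Finset.mem_union_left _ ((memS a).2 ⟨ha, haH, z, hz, hza.symm⟩)
      exact hsimp a (hmem a ha hza) b (hmem b hb hzb) hza hzb hab
    refine ⟨hP, ?_⟩
    rintro ⟨x, hx⟩
    by_cases hcase : ∃ y ∈ W, y ≠ x ∧ ¬ G.Adj x y
    · obtain ⟨y, hy, hyx, hxy⟩ := hcase
      obtain ⟨z, hz, _, _, hs⟩ := hP x hx y hy hyx hxy
      exact ⟨z, hz, hs⟩
    · push Not at hcase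
      by_cases hcase2 : ∃ a ∈ W, ∃ b ∈ W, b ≠ a ∧ ¬ G.Adj a b
      · obtain ⟨a, ha, b, hb, hba, hab⟩ := hcase2
        obtain ⟨z, hz, _, _, hs⟩ := hP a ha b hb hba hab
        exact ⟨z, hz, hs⟩
      · push Not at hcase2
        exact ⟨x, hx, fun a ha b hb _ _ hab => hcase2 a ha b hb hab.symm⟩

/-- Dirac: chordal graphs have simplicial vertices. -/
theorem exists_simplicial (hG : IsChordal G) (W : Finset V) (hW : W.Nonempty) :
    ∃ z ∈ W, Simplicial G W z :=
  (exists_simplicial_aux hG W.card W le_rfl).2 hW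

end Dirac

section Count

open Classical

variable {V : Type u} {G : SimpleGraph V}

/-- `l`-connectedness of the subgraph spanned by `W`. -/
def LC (G : SimpleGraph V) (l : ℕ) (W : Finset V) : Prop :=
  ∀ S : Finset V, S.card < l → ∀ a ∈ W, ∀ b ∈ W, a ∉ S → b ∉ S →
    Conn G {w | w ∈ W ∧ w ∉ S} a b

theorem conn_mono {D E : Set V} (h : D ⊆ E) {a b : V} (hab : Conn G D a b) : Conn G E a b :=
  Relation.ReflTransGen.mono (fun _ _ h' => ⟨h h'.1, h h'.2.1, h'.2.2⟩) _ _ hab

/-- Short-cutting a simplicial vertex. -/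
theorem conn_shortcut {D : Set V} {v : V} (hv : ∀ c ∈ D, ∀ q ∈ D, G.Adj v c → G.Adj v q →
    c ≠ q → G.Adj c q) {a b : V} (hav : a ≠ v)
    (hab : Conn G (insert v D) a b) :
    (b ≠ v → Conn G D a b) ∧ (b = v → ∀ q ∈ D, G.Adj v q → Conn G D a q) := by
  induction hab with
  | refl => exact ⟨fun _ => Relation.ReflTransGen.refl, fun h => absurd h hav⟩
  | @tail c d hac hcd ih =>
    obtain ⟨hc, hd, hadj⟩ := hcd
    constructor
    · intro hdv
      have hdD : d ∈ D := (Set.mem_insert_iff.1 hd).resolve_left hdv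
      by_cases hcv : c = v
      · exact ih.2 hcv d hdD (hcv ▸ hadj)
      · have hcD : c ∈ D := (Set.mem_insert_iff.1 hc).resolve_left hcv
        exact (ih.1 hcv).tail ⟨hcD, hdD, hadj⟩
    · intro hdv q hq hvq
      have hcv : c ≠ v := by
        intro h
        rw [h, hdv] at hadj
        exact G.loopless.irrefl _ hadj
      have hcD : c ∈ D := (Set.mem_insert_iff.1 hc).resolve_left hcv
      have h1 := ih.1 hcv
      by_cases hcq : c = q
      · rw [← hcq]
        exact h1
      · rw [hdv] at hadj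
        exact h1.tail ⟨hcD, hq, hv c hcD q hq hadj.symm hvq hcq⟩

/-- The neighbourhood of `v` in `W`. -/
noncomputable def nb (G : SimpleGraph V) (W : Finset V) (v : V) : Finset V :=
  W.filter (fun w => G.Adj v w)

theorem mem_nb {W : Finset V} {v w : V} : w ∈ nb G W v ↔ w ∈ W ∧ G.Adj v w := by
  simp [nb]

/-- The clique polynomial of the subgraph spanned by `W`. -/
noncomputable def cp (G : SimpleGraph V) (W : Finset V) : ℂ[X] :=
  ∑ s ∈ W.powerset.filter (fun s : Finset V => G.IsClique (s : Set V)), X ^ s.card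


theorem LC_erase {l : ℕ} {W : Finset V} {v : V} (hv : Simplicial G W v)
    (hW : LC G l W) : LC G l (W.erase v) := by
  intro S hS a ha b hb haS hbS
  obtain ⟨hav, haW⟩ := Finset.mem_erase.1 ha
  obtain ⟨hbv, hbW⟩ := Finset.mem_erase.1 hb
  have h1 := hW S hS a haW b hbW haS hbS
  have h2 : Conn G (insert v {w | w ∈ W.erase v ∧ w ∉ S}) a b := by
    refine conn_mono ?_ h1
    intro w hw
    by_cases hwv : w = v
    · exact Or.inl hwv
    · exact Or.inr ⟨Finset.mem_erase.2 ⟨hwv, hw.1⟩, hw.2⟩
  refine (conn_shortcut ?_ hav h2).1 hbv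
  intro c hc q hq hvc hvq hcq
  exact hv c (Finset.mem_erase.1 hc.1).2 q (Finset.mem_erase.1 hq.1).2 hvc hvq hcq

theorem le_card_nb {l : ℕ} {W : Finset V} (hW : LC G l W) (hcard : l + 1 ≤ W.card) {v : V}
    (hv : v ∈ W) : l ≤ (nb G W v).card := by
  by_contra hlt
  push Not at hlt
  have hex : ∃ b ∈ W, b ∉ insert v (nb G W v) := by
    by_contra hcon
    push Not at hcon
    have h1 : W ⊆ insert v (nb G W v) := hcon
    have h2 := Finset.card_le_card h1
    have h3 := Finset.card_insert_le v (nb G W v)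
    omega
  obtain ⟨b, hb, hbn⟩ := hex
  rw [Finset.mem_insert, not_or] at hbn
  have hvn : v ∉ nb G W v := by
    rw [mem_nb]
    exact fun h => G.loopless.irrefl _ h.2
  have h1 := hW (nb G W v) hlt v hv b hb hvn hbn.2
  rcases Relation.ReflTransGen.cases_head h1 with h | ⟨d, hd, _⟩
  · exact hbn.1 h.symm
  · exact hd.2.1.2 (mem_nb.2 ⟨hd.2.1.1, hd.2.2⟩)

theorem cp_of_clique {W : Finset V} (hW : G.IsClique (W : Set V)) :
    cp G W = (1 + X) ^ W.card := by
  have h1 : W.powerset.filter (fun s : Finset V => G.IsClique (s : Set V)) = W.powerset := by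
    rw [Finset.filter_true_of_mem]
    intro s hs
    exact hW.subset (Finset.coe_subset.2 (Finset.mem_powerset.1 hs))
  rw [cp, h1, add_comm]
  have h2 := Finset.sum_pow_mul_eq_add_pow (X : ℂ[X]) 1 W
  simpa using h2

theorem cp_erase {W : Finset V} {v : V} (hv : v ∈ W) (hs : Simplicial G W v) :
    cp G W = cp G (W.erase v) + X * (1 + X) ^ (nb G W v).card := by
  have hvn : ∀ t ⊆ nb G W v, v ∉ t := by
    intro t ht hvt
    exact G.loopless.irrefl _ (mem_nb.1 (ht hvt)).2
  have hnbc : G.IsClique ((nb G W v : Finset V) : Set V) := by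
    intro a ha b hb hab
    obtain ⟨ha1, ha2⟩ := mem_nb.1 ha
    obtain ⟨hb1, hb2⟩ := mem_nb.1 hb
    exact hs a ha1 b hb1 ha2 hb2 hab
  have hsplit : W.powerset.filter (fun s : Finset V => G.IsClique (s : Set V)) =
      (W.erase v).powerset.filter (fun s : Finset V => G.IsClique (s : Set V)) ∪
        (nb G W v).powerset.image (fun t : Finset V => insert v t) := by
    ext s
    rw [Finset.mem_union, Finset.mem_filter, Finset.mem_filter, Finset.mem_powerset,
      Finset.mem_powerset, Finset.mem_image]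
    constructor
    · rintro ⟨hsW, hsc⟩
      by_cases hvs : v ∈ s
      · right
        refine ⟨s.erase v, ?_, Finset.insert_erase hvs⟩
        rw [Finset.mem_powerset]
        intro w hw
        obtain ⟨hwv, hws⟩ := Finset.mem_erase.1 hw
        exact mem_nb.2 ⟨hsW hws, hsc hvs hws hwv.symm⟩
      · left
        exact ⟨fun w hw => Finset.mem_erase.2 ⟨fun h => hvs (h ▸ hw), hsW hw⟩, hsc⟩
    · rintro (⟨hsW, hsc⟩ | ⟨t, ht, rfl⟩)
      · exact ⟨hsW.trans (Finset.erase_subset _ _), hsc⟩
      · rw [Finset.mem_powerset] at ht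
        refine ⟨?_, ?_⟩
        · intro w hw
          rcases Finset.mem_insert.1 hw with rfl | hw
          · exact hv
          · exact (mem_nb.1 (ht hw)).1
        · rw [Finset.coe_insert, SimpleGraph.isClique_insert]
          refine ⟨hnbc.subset (Finset.coe_subset.2 ht), ?_⟩
          intro b hb _
          exact (mem_nb.1 (ht hb)).2
  have hdisj : Disjoint ((W.erase v).powerset.filter (fun s : Finset V => G.IsClique (s : Set V)))
      ((nb G W v).powerset.image (fun t : Finset V => insert v t)) := by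
    rw [Finset.disjoint_left]
    intro s hs1 hs2
    rw [Finset.mem_filter, Finset.mem_powerset] at hs1
    rw [Finset.mem_image] at hs2
    obtain ⟨t, _, rfl⟩ := hs2
    exact (Finset.mem_erase.1 (hs1.1 (Finset.mem_insert_self v t))).1 rfl
  rw [cp, hsplit, Finset.sum_union hdisj, ← cp]
  congr 1
  rw [Finset.sum_image]
  · have h1 : ∀ t ∈ (nb G W v).powerset, (X : ℂ[X]) ^ (insert v t).card = X * X ^ t.card := by
      intro t ht
      rw [Finset.card_insert_of_notMem (hvn t (Finset.mem_powerset.1 ht)), pow_succ, mul_comm]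
    rw [Finset.sum_congr rfl h1, ← Finset.mul_sum, add_comm]
    have h2 := Finset.sum_pow_mul_eq_add_pow (X : ℂ[X]) 1 (nb G W v)
    congr 1
    simpa using h2
  · intro t ht t' ht' htt
    rw [Finset.mem_coe, Finset.mem_powerset] at ht ht'
    have h1 := congrArg (fun s => Finset.erase s v) htt
    simp only [Finset.erase_insert (hvn t ht), Finset.erase_insert (hvn t' ht')] at h1
    exact h1

/-- The shape of the clique polynomial. -/
theorem cp_shape (hG : IsChordal G) {l : ℕ} (hfree : G.CliqueFree (l + 3)) :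
    ∀ (m : ℕ) (W : Finset V), W.card = l + 1 + m → LC G l W →
      ∃ b : ℕ, b ≤ m ∧ cp G W = (1 + X) ^ l * (1 + C ((m : ℂ) + 1) * X + C (b : ℂ) * X ^ 2) := by
  intro m
  induction m with
  | zero =>
    intro W hcard hW
    refine ⟨0, le_rfl, ?_⟩
    have hcl : G.IsClique (W : Set V) := by
      intro a ha b hb hab
      have h1 := le_card_nb hW (by omega) (Finset.mem_coe.1 ha)
      have h2 : nb G W a ⊆ W.erase a := by
        intro w hw
        obtain ⟨hw1, hw2⟩ := mem_nb.1 hw
        exact Finset.mem_erase.2 ⟨fun h => G.loopless.irrefl _ (h ▸ hw2), hw1⟩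
      have h3 : nb G W a = W.erase a := by
        apply Finset.eq_of_subset_of_card_le h2
        rw [Finset.card_erase_of_mem (Finset.mem_coe.1 ha)]
        omega
      have h4 : b ∈ nb G W a := by
        rw [h3]
        exact Finset.mem_erase.2 ⟨hab.symm, Finset.mem_coe.1 hb⟩
      exact (mem_nb.1 h4).2
    rw [cp_of_clique hcl, hcard]
    simp
    ring
  | succ m ih =>
    intro W hcard hW
    have hne : W.Nonempty := by
      rw [← Finset.card_pos]
      omega
    obtain ⟨v, hv, hs⟩ := exists_simplicial hG W hne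
    have hd1 := le_card_nb hW (by omega) hv
    have hd2 : (nb G W v).card ≤ l + 1 := by
      by_contra hlt
      push Not at hlt
      have hcl : G.IsNClique ((nb G W v).card + 1) (insert v (nb G W v)) := by
        rw [SimpleGraph.isNClique_iff]
        constructor
        · rw [Finset.coe_insert, SimpleGraph.isClique_insert]
          refine ⟨?_, ?_⟩
          · intro a ha b hb hab
            obtain ⟨ha1, ha2⟩ := mem_nb.1 ha
            obtain ⟨hb1, hb2⟩ := mem_nb.1 hb
            exact hs a ha1 b hb1 ha2 hb2 hab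
          · intro b hb _
            exact (mem_nb.1 hb).2
        · rw [Finset.card_insert_of_notMem]
          rw [mem_nb]
          exact fun h => G.loopless.irrefl _ h.2
      exact hfree.mono (by omega) _ hcl
    have hcard' : (W.erase v).card = l + 1 + m := by
      rw [Finset.card_erase_of_mem hv]
      omega
    obtain ⟨b, hb, hcp⟩ := ih _ hcard' (LC_erase hs hW)
    have hd : (nb G W v).card = l ∨ (nb G W v).card = l + 1 := by omega
    rcases hd with hd | hd
    · refine ⟨b, by omega, ?_⟩
      rw [cp_erase hv hs, hcp, hd]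
      push_cast
      simp only [map_add, map_one]
      ring
    · refine ⟨b + 1, by omega, ?_⟩
      rw [cp_erase hv hs, hcp, hd]
      push_cast
      simp only [map_add, map_one]
      ring

end Count

section Final

variable {V : Type u} {G : SimpleGraph V}

theorem cliquePoly_eq [Fintype V] : cliquePoly G = cp G Finset.univ := by
  classical
  have h1 : ∀ s ∈ (Finset.univ : Finset V).powerset.filter
      (fun s : Finset V => G.IsClique (s : Set V)),
      s.card ∈ Finset.range (Fintype.card V + 1) := by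
    intro s _
    rw [Finset.mem_range]
    have := Finset.card_le_univ s
    omega
  rw [cp, ← Finset.sum_fiberwise_of_maps_to h1, cliquePoly]
  refine Finset.sum_congr rfl fun k _ => ?_
  have h2 : ∀ s ∈ ((Finset.univ : Finset V).powerset.filter
      (fun s : Finset V => G.IsClique (s : Set V))).filter (fun s => s.card = k),
      (X : ℂ[X]) ^ s.card = X ^ k := by
    intro s hs
    rw [(Finset.mem_filter.1 hs).2]
  rw [Finset.sum_congr rfl h2, Finset.sum_const, nsmul_eq_mul]
  have h3 : numCliques G k = (((Finset.univ : Finset V).powerset.filter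
      (fun s : Finset V => G.IsClique (s : Set V))).filter (fun s => s.card = k)).card := by
    rw [numCliques, ← Set.ncard_coe_finset]
    congr 1
    ext s
    simp [SimpleGraph.isNClique_iff]
  rw [h3]
  simp

theorem LC_univ [Fintype V] {l : ℕ} (h : IsLConnected G l) : LC G l Finset.univ := by
  intro S hS a _ b _ haS hbS
  have h1 := (h.2 S hS).preconnected ⟨a, haS⟩ ⟨b, hbS⟩
  rw [SimpleGraph.reachable_iff_reflTransGen] at h1
  exact Relation.ReflTransGen.lift
    (p := fun p q => p ∈ {w | w ∈ Finset.univ ∧ w ∉ S} ∧ q ∈ {w | w ∈ Finset.univ ∧ w ∉ S} ∧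
      G.Adj p q) (fun x : {v : V | v ∉ S} => x.1)
    (fun x y hxy => ⟨⟨Finset.mem_univ _, x.2⟩, ⟨Finset.mem_univ _, y.2⟩, hxy⟩) _ _ h1

theorem quadratic_root {m b : ℕ} (hb : b ≤ m) {z : ℂ}
    (hz : 1 + ((m : ℂ) + 1) * z + (b : ℂ) * z ^ 2 = 0) : z.im = 0 := by
  have hre := congrArg Complex.re hz
  have him := congrArg Complex.im hz
  simp [pow_two] at hre him
  obtain ⟨x, hx⟩ : ∃ x, x = z.re := ⟨_, rfl⟩
  obtain ⟨y, hy⟩ : ∃ y, y = z.im := ⟨_, rfl⟩
  rw [← hx, ← hy] at hre him
  rw [← hy]
  have hbm : (b : ℝ) ≤ m := by exact_mod_cast hb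
  have hb0 : (0 : ℝ) ≤ b := Nat.cast_nonneg b
  have h1 : y * ((m + 1) + 2 * b * x) = 0 := by nlinarith
  rcases mul_eq_zero.1 h1 with h | h
  · exact h
  · have h2 : 4 * (b : ℝ) ^ 2 * y ^ 2 = 4 * b - (m + 1) ^ 2 := by nlinarith
    have h3 : 4 * (b : ℝ) ^ 2 * y ^ 2 ≤ 0 := by nlinarith [sq_nonneg ((m : ℝ) - 1)]
    have hbpos : (0 : ℝ) < b := by
      rcases hb0.lt_or_eq with h4 | h4
      · exact h4
      · rw [← h4] at h
        have : (0 : ℝ) ≤ m := Nat.cast_nonneg m
        nlinarith
    have h4 : y ^ 2 ≤ 0 := by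
      by_contra hlt
      push Not at hlt
      have : 0 < 4 * (b : ℝ) ^ 2 * y ^ 2 := by positivity
      linarith
    nlinarith [sq_nonneg y, pow_eq_zero_iff (two_ne_zero) |>.1 (le_antisymm h4 (sq_nonneg y))]

end Final

/-- **Positive answer to Q1** (for every `l`, in particular for `l ≥ 3`): all roots of the
clique polynomial of an `l`-connected chordal `K_{l+3}`-free graph are real. -/
theorem result (l : ℕ) (V : Type u) [Fintype V] (G : SimpleGraph V)
    (hconn : IsLConnected G l) (hchordal : IsChordal G) (hfree : G.CliqueFree (l + 3)) :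
    ∀ z : ℂ, (cliquePoly G).IsRoot z → z.im = 0 := by
  classical
  intro z hz
  obtain ⟨m, hm⟩ : ∃ m, (Finset.univ : Finset V).card = l + 1 + m := by
    refine ⟨Fintype.card V - (l + 1), ?_⟩
    rw [Finset.card_univ]
    have := hconn.1
    omega
  obtain ⟨b, hb, hcp⟩ := cp_shape hchordal hfree m Finset.univ hm (LC_univ hconn)
  rw [cliquePoly_eq, hcp, Polynomial.IsRoot.def, Polynomial.eval_mul] at hz
  rcases mul_eq_zero.1 hz with h | h
  · rw [Polynomial.eval_pow] at h
    have h2 : Polynomial.eval z (1 + X) = 0 := eq_zero_of_pow_eq_zero h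
    simp at h2
    have h3 : z = -1 := by linear_combination h2
    rw [h3]
    simp
  · simp at h
    exact quadratic_root hb h

end Pool.Agent.Results.MP_77abd0_co.RealCliqueRoots
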